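import Mathlib

/-!
Abelian cubes and morphisms on three letters: a Dekking type criterion, with no condition on the
eigenvalues of the incidence matrix.
-/

namespace Pool.Agent.Lib.MP_afd3e6_co

open Finset

/-- a morphism of the free monoid on three letters, given by the images of the letters -/
abbrev Morph := Fin 3 → List (Fin 3)

/-- image of a finite word -/
def img (h : Morph) (u : List (Fin 3)) : List (Fin 3) := u.flatMap h

/-- prefix of length `n` of the infinite word `w` -/
def pre (w : ℕ → Fin 3) (n : ℕ) : List (Fin 3) := (List.range n).map w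

/-- `h(w) = w` : the image of every prefix of `w` is a prefix of `w`, and these images are
arbitrarily long -/
def IsFixedPoint (h : Morph) (w : ℕ → Fin 3) : Prop :=
  (∀ n, img h (pre w n) = pre w (img h (pre w n)).length) ∧
    ∀ N, ∃ n, N ≤ (img h (pre w n)).length

/-- number of occurrences of the letter `x` in the factor of `w` at the positions `i,…,j-1` -/
def occ (w : ℕ → Fin 3) (x : Fin 3) (i j : ℕ) : ℕ := #{n ∈ Ico i j | w n = x}

/-- no factor of `w` is an abelian cube -/
def AbelianCubeFree (w : ℕ → Fin 3) : Prop :=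
  ∀ i p : ℕ, 0 < p →
    ¬ ∀ x : Fin 3, occ w x i (i + p) = occ w x (i + p) (i + 2 * p) ∧
      occ w x (i + p) (i + 2 * p) = occ w x (i + 2 * p) (i + 3 * p)

/-- the incidence matrix of `h` -/
def incMatrix (h : Morph) : Matrix (Fin 3) (Fin 3) ℂ :=
  Matrix.of fun x y => (((h y).count x : ℕ) : ℂ)

/-- Parikh vector -/
def par (u : List (Fin 3)) (x : Fin 3) : ℤ := (u.count x : ℤ)

/-- action of `h` on Parikh vectors -/
def act (h : Morph) (v : Fin 3 → ℤ) (x : Fin 3) : ℤ := ∑ y, v y * par (h y) x

theorem par_append (u v : List (Fin 3)) (x) : par (u ++ v) x = par u x + par v x := by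
  simp [par, List.count_append]

theorem par_nonneg (u : List (Fin 3)) (x) : 0 ≤ par u x := by simp [par]

theorem img_append (h : Morph) (u v : List (Fin 3)) : img h (u ++ v) = img h u ++ img h v := by
  simp [img]

theorem par_img (h : Morph) (u : List (Fin 3)) (x) : par (img h u) x = act h (par u) x := by
  induction u with
  | nil => simp [img, par, act]
  | cons a u ih =>
    have h1 : img h (a :: u) = h a ++ img h u := by simp [img]
    rw [h1, par_append, ih]
    simp only [act]
    have : ∀ y, par (a :: u) y = (if y = a then 1 else 0) + par u y := by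
      intro y
      simp only [par, List.count_cons]
      by_cases hy : a = y
      · subst hy; simp; ring
      · have : ¬ y = a := fun h => hy h.symm
        simp [hy, this]
    simp only [this, add_mul, Finset.sum_add_distrib]
    simp

theorem sum_par (u : List (Fin 3)) : ∑ x, par u x = (u.length : ℤ) := by
  induction u with
  | nil => simp [par]
  | cons a u ih =>
    have : ∀ y, par (a :: u) y = (if y = a then 1 else 0) + par u y := by
      intro y
      simp only [par, List.count_cons]
      by_cases hy : a = y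
      · subst hy; simp; ring
      · have : ¬ y = a := fun h => hy h.symm
        simp [hy, this]
    simp only [this, Finset.sum_add_distrib, ih]
    simp
    ring

theorem pre_length (w : ℕ → Fin 3) (n : ℕ) : (pre w n).length = n := by simp [pre]

theorem pre_succ (w : ℕ → Fin 3) (n : ℕ) : pre w (n + 1) = pre w n ++ [w n] := by
  simp [pre, List.range_succ]

theorem take_pre (w : ℕ → Fin 3) {m n : ℕ} (hmn : m ≤ n) : (pre w n).take m = pre w m := by
  simp [pre, ← List.map_take, List.take_range, hmn]

theorem par_pre (w : ℕ → Fin 3) (n : ℕ) (x) : par (pre w n) x = (occ w x 0 n : ℤ) := by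
  induction n with
  | zero => simp [pre, par, occ]
  | succ n ih =>
    rw [pre_succ, par_append, ih]
    have : occ w x 0 (n + 1) = occ w x 0 n + if w n = x then 1 else 0 := by
      unfold occ
      rw [← Finset.insert_Ico_right_eq_Ico_add_one (Nat.zero_le n), Finset.filter_insert]
      split_ifs with h1
      · rw [Finset.card_insert_of_notMem (by simp)]
      · simp
    rw [this]
    by_cases hx : w n = x
    · simp [par, hx]
    · simp [par, hx]

theorem occ_split (w : ℕ → Fin 3) (x) {i j : ℕ} (hij : i ≤ j) :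
    occ w x 0 j = occ w x 0 i + occ w x i j := by
  unfold occ
  rw [← Finset.card_union_of_disjoint, ← Finset.filter_union,
    Finset.Ico_union_Ico_eq_Ico (Nat.zero_le i) hij]
  apply Finset.disjoint_filter_filter
  exact Finset.Ico_disjoint_Ico_consecutive 0 i j

/-- Certificate: `f` is a homomorphism to `ZMod D` killing the images of the letters, the classes of
the proper prefixes of the images contain no nontrivial four term progression, and equal classes
come from equal prefixes or equal suffixes (recorded by `e`). -/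
structure Cert (h : Morph) (D : ℕ) (f : Fin 3 → ZMod D) (e : Fin 3 → ℕ → ℕ) : Prop where
  len : ∀ x, 2 ≤ (h x).length
  kill : ∀ x, ∑ y, (par (h x) y : ZMod D) * f y = 0
  ap : ∀ x₀ x₁ x₂ x₃ : Fin 3, ∀ j₀ < (h x₀).length, ∀ j₁ < (h x₁).length,
    ∀ j₂ < (h x₂).length, ∀ j₃ < (h x₃).length, ∀ d : ZMod D,
    ∑ y, (par ((h x₁).take j₁) y : ZMod D) * f y = ∑ y, (par ((h x₀).take j₀) y : ZMod D) * f y + d →
    ∑ y, (par ((h x₂).take j₂) y : ZMod D) * f y = ∑ y, (par ((h x₁).take j₁) y : ZMod D) * f y + d →
    ∑ y, (par ((h x₃).take j₃) y : ZMod D) * f y = ∑ y, (par ((h x₂).take j₂) y : ZMod D) * f y + d →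
    d = 0
  e_le : ∀ x j, e x j ≤ 1
  same : ∀ x y : Fin 3, ∀ i < (h x).length, ∀ j < (h y).length,
    ∑ z, (par ((h x).take i) z : ZMod D) * f z = ∑ z, (par ((h y).take j) z : ZMod D) * f z →
    ∀ z, par ((h x).take i) z - e x i * par (h x) z = par ((h y).take j) z - e y j * par (h y) z
  inj : ∀ v : Fin 3 → ℤ, (∀ x, act h v x = 0) → v = 0

variable {h : Morph} {w : ℕ → Fin 3}

theorem img_pre_succ (h : Morph) (w : ℕ → Fin 3) (k : ℕ) :
    img h (pre w (k + 1)) = img h (pre w k) ++ h (w k) := by
  rw [pre_succ, img_append]; simp [img]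

/-- every position lies in the image of a letter -/
theorem decomp (hlen : ∀ x, 2 ≤ (h x).length) (n : ℕ) :
    ∃ k j, j < (h (w k)).length ∧ n = (img h (pre w k)).length + j := by
  induction n with
  | zero =>
    exact ⟨0, 0, by have := hlen (w 0); omega, by simp [pre, img]⟩
  | succ n ih =>
    obtain ⟨k, j, hj, hn⟩ := ih
    by_cases h1 : j + 1 < (h (w k)).length
    · exact ⟨k, j + 1, h1, by omega⟩
    · refine ⟨k + 1, 0, by have := hlen (w (k + 1)); omega, ?_⟩
      rw [img_pre_succ, List.length_append]; omega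

theorem par_pre_decomp (hw : IsFixedPoint h w) {n k j : ℕ} (hj : j < (h (w k)).length)
    (hn : n = (img h (pre w k)).length + j) (x) :
    par (pre w n) x = act h (par (pre w k)) x + par ((h (w k)).take j) x := by
  have h1 := hw.1 (k + 1)
  have h2 : pre w n = img h (pre w k) ++ (h (w k)).take j := by
    have h3 : n ≤ (img h (pre w (k + 1))).length := by
      rw [img_pre_succ, List.length_append]; omega
    rw [← take_pre w h3, ← h1, img_pre_succ, hn, List.take_length_add_append]
  rw [h2, par_append, par_img]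

theorem act_sub (h : Morph) (u v : Fin 3 → ℤ) (x) :
    act h (fun y => u y - v y) x = act h u x - act h v x := by
  simp only [act, sub_mul, Finset.sum_sub_distrib]

theorem par_pre_mono (w : ℕ → Fin 3) {m n : ℕ} (hmn : m ≤ n) (x) :
    par (pre w m) x ≤ par (pre w n) x := by
  rw [par_pre, par_pre, occ_split w x hmn]; push_cast; omega

theorem sum_pre (w : ℕ → Fin 3) (n : ℕ) : ∑ x, par (pre w n) x = (n : ℤ) := by
  rw [sum_par, pre_length]

theorem sum_act (h : Morph) (v : Fin 3 → ℤ) :
    ∑ x, act h v x = ∑ y, v y * ((h y).length : ℤ) := by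
  simp only [act]
  rw [Finset.sum_comm]
  refine Finset.sum_congr rfl fun y _ => ?_
  rw [← Finset.mul_sum, sum_par]

/-- the key step: four positions whose prefix vectors are in arithmetic progression come from four
positions of the same kind with a smaller difference -/
theorem step {D : ℕ} {f : Fin 3 → ZMod D} {e : Fin 3 → ℕ → ℕ} (C : Cert h D f e)
    (hw : IsFixedPoint h w) {i p : ℕ} (hp : 0 < p)
    (h1 : ∀ x, par (pre w (i + p)) x - par (pre w i) x =
      par (pre w (i + 2 * p)) x - par (pre w (i + p)) x)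
    (h2 : ∀ x, par (pre w (i + 2 * p)) x - par (pre w (i + p)) x =
      par (pre w (i + 3 * p)) x - par (pre w (i + 2 * p)) x) :
    ∃ i' p', 0 < p' ∧ p' < p ∧
    (∀ x, par (pre w (i' + p')) x - par (pre w i') x =
      par (pre w (i' + 2 * p')) x - par (pre w (i' + p')) x) ∧
    (∀ x, par (pre w (i' + 2 * p')) x - par (pre w (i' + p')) x =
      par (pre w (i' + 3 * p')) x - par (pre w (i' + 2 * p')) x) := by
  obtain ⟨k₀, j₀, hj₀, hn₀⟩ := decomp (w := w) C.len i
  obtain ⟨k₁, j₁, hj₁, hn₁⟩ := decomp (w := w) C.len (i + p)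
  obtain ⟨k₂, j₂, hj₂, hn₂⟩ := decomp (w := w) C.len (i + 2 * p)
  obtain ⟨k₃, j₃, hj₃, hn₃⟩ := decomp (w := w) C.len (i + 3 * p)
  have P₀ := par_pre_decomp hw hj₀ hn₀
  have P₁ := par_pre_decomp hw hj₁ hn₁
  have P₂ := par_pre_decomp hw hj₂ hn₂
  have P₃ := par_pre_decomp hw hj₃ hn₃
  -- classes
  have hcls : ∀ k j n, (∀ x, par (pre w n) x = act h (par (pre w k)) x + par ((h (w k)).take j) x) →
      ∑ y, (par (pre w n) y : ZMod D) * f y = ∑ y, (par ((h (w k)).take j) y : ZMod D) * f y := by
    intro k j n hP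
    have h3 : ∑ y, (act h (par (pre w k)) y : ZMod D) * f y = 0 := by
      simp only [act]
      push_cast
      simp only [Finset.sum_mul]
      rw [Finset.sum_comm]
      refine Finset.sum_eq_zero fun z _ => ?_
      have := C.kill z
      simp only [mul_assoc]
      rw [← Finset.mul_sum, this, mul_zero]
    simp only [hP]
    push_cast
    simp only [add_mul, Finset.sum_add_distrib]
    rw [h3, zero_add]
  have c₀ := hcls k₀ j₀ i P₀
  have c₁ := hcls k₁ j₁ (i + p) P₁
  have c₂ := hcls k₂ j₂ (i + 2 * p) P₂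
  have c₃ := hcls k₃ j₃ (i + 3 * p) P₃
  set d : ZMod D := ∑ y, (par (pre w (i + p)) y : ZMod D) * f y -
    ∑ y, (par (pre w i) y : ZMod D) * f y with hd
  have hd1 : ∑ y, (par (pre w (i + 2 * p)) y : ZMod D) * f y =
      ∑ y, (par (pre w (i + p)) y : ZMod D) * f y + d := by
    rw [hd, ← Finset.sum_sub_distrib, ← Finset.sum_add_distrib]
    refine Finset.sum_congr rfl fun y _ => ?_
    have : par (pre w (i + 2 * p)) y = par (pre w (i + p)) y +
      (par (pre w (i + p)) y - par (pre w i) y) := by have := h1 y; omega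
    rw [this]; push_cast; ring
  have hd2 : ∑ y, (par (pre w (i + 3 * p)) y : ZMod D) * f y =
      ∑ y, (par (pre w (i + 2 * p)) y : ZMod D) * f y + d := by
    rw [hd, ← Finset.sum_sub_distrib, ← Finset.sum_add_distrib]
    refine Finset.sum_congr rfl fun y _ => ?_
    have : par (pre w (i + 3 * p)) y = par (pre w (i + 2 * p)) y +
      (par (pre w (i + p)) y - par (pre w i) y) := by have := h1 y; have := h2 y; omega
    rw [this]; push_cast; ring
  have hd0 : ∑ y, (par (pre w (i + p)) y : ZMod D) * f y =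
      ∑ y, (par (pre w i) y : ZMod D) * f y + d := by rw [hd]; ring
  have d0 : d = 0 := by
    refine C.ap _ _ _ _ j₀ hj₀ j₁ hj₁ j₂ hj₂ j₃ hj₃ d ?_ ?_ ?_
    · rw [← c₀, ← c₁]; exact hd0
    · rw [← c₁, ← c₂]; exact hd1
    · rw [← c₂, ← c₃]; exact hd2
  rw [d0, add_zero] at hd0 hd1 hd2
  have s₁ := C.same _ _ j₁ hj₁ j₀ hj₀ (by rw [← c₀, ← c₁]; exact hd0)
  have s₂ := C.same _ _ j₂ hj₂ j₁ hj₁ (by rw [← c₁, ← c₂]; exact hd1)
  have s₃ := C.same _ _ j₃ hj₃ j₂ hj₂ (by rw [← c₂, ← c₃]; exact hd2)
  -- new positions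
  have key : ∀ k j n, (∀ x, par (pre w n) x = act h (par (pre w k)) x + par ((h (w k)).take j) x) →
      ∀ x, par (pre w n) x = act h (par (pre w (k + e (w k) j))) x +
        (par ((h (w k)).take j) x - e (w k) j * par (h (w k)) x) := by
    intro k j n hP x
    rw [hP x]
    have hle := C.e_le (w k) j
    rcases Nat.le_one_iff_eq_zero_or_eq_one.1 hle with h0 | h0
    · rw [h0]; simp
    · rw [h0, ← par_img h (pre w (k + 1)), img_pre_succ, par_append, par_img]; push_cast; ring
  have K₀ := key _ _ _ P₀
  have K₁ := key _ _ _ P₁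
  have K₂ := key _ _ _ P₂
  have K₃ := key _ _ _ P₃
  set m₀ := k₀ + e (w k₀) j₀
  set m₁ := k₁ + e (w k₁) j₁
  set m₂ := k₂ + e (w k₂) j₂
  set m₃ := k₃ + e (w k₃) j₃
  have A₁ : ∀ x, act h (fun y => par (pre w m₁) y - par (pre w m₀) y) x =
      par (pre w (i + p)) x - par (pre w i) x := by
    intro x; rw [act_sub]; have := K₀ x; have := K₁ x; have := s₁ x; omega
  have A₂ : ∀ x, act h (fun y => par (pre w m₂) y - par (pre w m₁) y) x =
      par (pre w (i + 2 * p)) x - par (pre w (i + p)) x := by
    intro x; rw [act_sub]; have := K₁ x; have := K₂ x; have := s₂ x; omega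
  have A₃ : ∀ x, act h (fun y => par (pre w m₃) y - par (pre w m₂) y) x =
      par (pre w (i + 3 * p)) x - par (pre w (i + 2 * p)) x := by
    intro x; rw [act_sub]; have := K₂ x; have := K₃ x; have := s₃ x; omega
  have B₁ : ∀ y, par (pre w m₂) y - par (pre w m₁) y = par (pre w m₁) y - par (pre w m₀) y := by
    have := C.inj (fun y => (par (pre w m₂) y - par (pre w m₁) y) -
      (par (pre w m₁) y - par (pre w m₀) y)) (by
        intro x; rw [act_sub, A₁, A₂]; have := h1 x; omega)
    intro y
    have := congrFun this y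
    simp only [Pi.zero_apply] at this
    omega
  have B₂ : ∀ y, par (pre w m₃) y - par (pre w m₂) y = par (pre w m₂) y - par (pre w m₁) y := by
    have := C.inj (fun y => (par (pre w m₃) y - par (pre w m₂) y) -
      (par (pre w m₂) y - par (pre w m₁) y)) (by
        intro x; rw [act_sub, A₂, A₃]; have := h2 x; omega)
    intro y
    have := congrFun this y
    simp only [Pi.zero_apply] at this
    omega
  -- sums
  have S₁ : ((m₂ : ℤ) - m₁) = (m₁ : ℤ) - m₀ := by
    rw [← sum_pre w m₂, ← sum_pre w m₁, ← sum_pre w m₀, ← Finset.sum_sub_distrib,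
      ← Finset.sum_sub_distrib]
    exact Finset.sum_congr rfl fun y _ => B₁ y
  have S₂ : ((m₃ : ℤ) - m₂) = (m₂ : ℤ) - m₁ := by
    rw [← sum_pre w m₃, ← sum_pre w m₂, ← sum_pre w m₁, ← Finset.sum_sub_distrib,
      ← Finset.sum_sub_distrib]
    exact Finset.sum_congr rfl fun y _ => B₂ y
  have S₀ : (p : ℤ) = ∑ y, (par (pre w m₁) y - par (pre w m₀) y) * ((h y).length : ℤ) := by
    rw [← sum_act h (fun y => par (pre w m₁) y - par (pre w m₀) y)]
    rw [Finset.sum_congr rfl fun x _ => A₁ x, Finset.sum_sub_distrib, sum_pre, sum_pre]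
    push_cast; ring
  have hlt : m₀ < m₁ := by
    by_contra hcon
    push Not at hcon
    have h5 : ∑ y, (par (pre w m₁) y - par (pre w m₀) y) * ((h y).length : ℤ) ≤ 0 := by
      refine Finset.sum_nonpos fun y _ => ?_
      have := par_pre_mono w hcon y
      exact mul_nonpos_of_nonpos_of_nonneg (by omega) (by omega)
    omega
  obtain ⟨p', hp'⟩ := Nat.exists_eq_add_of_lt hlt
  have e₁ : m₁ = m₀ + (p' + 1) := by omega
  have e₂ : m₂ = m₀ + 2 * (p' + 1) := by omega
  have e₃ : m₃ = m₀ + 3 * (p' + 1) := by omega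
  refine ⟨m₀, p' + 1, by omega, ?_, ?_, ?_⟩
  · have h5 : ∑ y, (par (pre w m₁) y - par (pre w m₀) y) * 2 ≤
        ∑ y, (par (pre w m₁) y - par (pre w m₀) y) * ((h y).length : ℤ) := by
      refine Finset.sum_le_sum fun y _ => ?_
      have := par_pre_mono w hlt.le y
      have hl := C.len y
      exact mul_le_mul_of_nonneg_left (by exact_mod_cast hl) (by omega)
    rw [← Finset.sum_mul, Finset.sum_sub_distrib, sum_pre, sum_pre, ← S₀] at h5
    omega
  · intro x; rw [← e₁, ← e₂]; exact (B₁ x).symm
  · intro x; rw [← e₁, ← e₂, ← e₃]; exact (B₂ x).symm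

theorem abelianCubeFree {D : ℕ} {f : Fin 3 → ZMod D} {e : Fin 3 → ℕ → ℕ} (C : Cert h D f e)
    (hw : IsFixedPoint h w) : AbelianCubeFree w := by
  have main : ∀ p i : ℕ, 0 < p →
      ¬ ((∀ x, par (pre w (i + p)) x - par (pre w i) x =
        par (pre w (i + 2 * p)) x - par (pre w (i + p)) x) ∧
      (∀ x, par (pre w (i + 2 * p)) x - par (pre w (i + p)) x =
        par (pre w (i + 3 * p)) x - par (pre w (i + 2 * p)) x)) := by
    intro p
    induction p using Nat.strong_induction_on with
    | _ p ih =>
      intro i hp ⟨h1, h2⟩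
      obtain ⟨i', p', hp', hlt, h1', h2'⟩ := step C hw hp h1 h2
      exact ih p' hlt i' hp' ⟨h1', h2'⟩
  intro i p hp hcube
  apply main p i hp
  have a1 : ∀ x, (occ w x 0 (i + p) : ℤ) = occ w x 0 i + occ w x i (i + p) := fun x => by
    rw [occ_split w x (show i ≤ i + p by omega)]; push_cast; ring
  have a2 : ∀ x, (occ w x 0 (i + 2 * p) : ℤ) = occ w x 0 (i + p) + occ w x (i + p) (i + 2 * p) :=
    fun x => by rw [occ_split w x (show i + p ≤ i + 2 * p by omega)]; push_cast; ring
  have a3 : ∀ x, (occ w x 0 (i + 3 * p) : ℤ) = occ w x 0 (i + 2 * p) +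
      occ w x (i + 2 * p) (i + 3 * p) :=
    fun x => by rw [occ_split w x (show i + 2 * p ≤ i + 3 * p by omega)]; push_cast; ring
  constructor
  · intro x
    rw [par_pre, par_pre, par_pre, a2 x, a1 x]
    have := (hcube x).1
    omega
  · intro x
    rw [par_pre, par_pre, par_pre, a3 x, a2 x]
    have := (hcube x).2
    omega

end Pool.Agent.Lib.MP_afd3e6_co
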