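import Mathlib
import Pool.Agent.Lib.MP_afd3e6_co.Dekking

/-!
Existence of the fixed point `h^∞(a)` and a decidable form of the certificate.
-/

namespace Pool.Agent.Lib.MP_afd3e6_co

open Finset

theorem img_mono (h : Morph) {u v : List (Fin 3)} (huv : u <+: v) : img h u <+: img h v := by
  obtain ⟨t, rfl⟩ := huv
  rw [img_append]
  exact List.prefix_append _ _

/-- the iterates `h^k(a)` -/
def iter (h : Morph) (a : Fin 3) (k : ℕ) : List (Fin 3) := (img h)^[k] [a]

theorem iter_succ (h : Morph) (a : Fin 3) (k : ℕ) : iter h a (k + 1) = img h (iter h a k) := by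
  unfold iter
  rw [Function.iterate_succ_apply']

theorem length_le_img (h : Morph) (hlen : ∀ x, 2 ≤ (h x).length) (u : List (Fin 3)) :
    2 * u.length ≤ (img h u).length := by
  induction u with
  | nil => simp [img]
  | cons b u ih =>
    have h1 : img h (b :: u) = h b ++ img h u := by simp [img]
    rw [h1, List.length_append, List.length_cons]
    have := hlen b
    omega

theorem iter_prefix (h : Morph) (a : Fin 3) (ha : [a] <+: h a) (k : ℕ) :
    iter h a k <+: iter h a (k + 1) := by
  induction k with
  | zero =>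
    rw [iter_succ]
    have : img h (iter h a 0) = h a := by simp [iter, img]
    rw [this]
    simpa [iter] using ha
  | succ k ih =>
    rw [iter_succ h a (k + 1), iter_succ h a k]
    exact img_mono h (by rw [← iter_succ]; exact ih)

theorem iter_prefix_le (h : Morph) (a : Fin 3) (ha : [a] <+: h a) {k l : ℕ} (hkl : k ≤ l) :
    iter h a k <+: iter h a l := by
  induction l, hkl using Nat.le_induction with
  | base => exact List.prefix_rfl
  | succ l _ ih => exact ih.trans (iter_prefix h a ha l)

theorem iter_length (h : Morph) (a : Fin 3) (hlen : ∀ x, 2 ≤ (h x).length) (k : ℕ) :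
    k + 1 ≤ (iter h a k).length := by
  induction k with
  | zero => simp [iter]
  | succ k ih =>
    rw [iter_succ]
    have := length_le_img h hlen (iter h a k)
    omega

/-- the infinite word `h^∞(a)` -/
def limWord (h : Morph) (a : Fin 3) (n : ℕ) : Fin 3 := (iter h a n).getD n 0

theorem pre_limWord (h : Morph) (a : Fin 3) (ha : [a] <+: h a) (hlen : ∀ x, 2 ≤ (h x).length)
    {n k : ℕ} (hnk : n ≤ (iter h a k).length) : pre (limWord h a) n = (iter h a k).take n := by
  apply List.ext_getElem
  · rw [pre_length, List.length_take]; omega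
  · intro i h1 h2
    rw [pre_length] at h1
    have hi : i < (iter h a i).length := by have := iter_length h a hlen i; omega
    have hik : i < (iter h a k).length := by omega
    simp only [pre, List.getElem_map, List.getElem_range, List.getElem_take]
    unfold limWord
    rw [List.getD_eq_getElem _ _ hi]
    rcases le_total i k with hle | hle
    · exact (iter_prefix_le h a ha hle).getElem hi
    · exact ((iter_prefix_le h a ha hle).getElem hik).symm

theorem isFixedPoint_limWord (h : Morph) (a : Fin 3) (ha : [a] <+: h a)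
    (hlen : ∀ x, 2 ≤ (h x).length) : IsFixedPoint h (limWord h a) := by
  constructor
  · intro n
    have hn : n ≤ (iter h a n).length := by have := iter_length h a hlen n; omega
    have h1 := pre_limWord h a ha hlen hn
    have h2 : img h (pre (limWord h a) n) <+: iter h a (n + 1) := by
      rw [h1, iter_succ]
      exact img_mono h (List.take_prefix _ _)
    rw [pre_limWord h a ha hlen h2.length_le]
    exact List.prefix_iff_eq_take.1 h2
  · intro N
    refine ⟨N, ?_⟩
    have := length_le_img h hlen (pre (limWord h a) N)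
    rw [pre_length] at this
    omega

/-- the class of the prefix of length `j` of `h x`, as a natural number -/
def cl (h : Morph) (D : ℕ) (g : Fin 3 → ℕ) (x : Fin 3) (j : ℕ) : ℕ :=
  (((h x).take j).map g).sum % D

theorem cast_cl (h : Morph) (D : ℕ) (g : Fin 3 → ℕ) (x : Fin 3) (j : ℕ) :
    ((cl h D g x j : ℕ) : ZMod D) =
      ∑ y, (par ((h x).take j) y : ZMod D) * ((g y : ℕ) : ZMod D) := by
  unfold cl
  rw [ZMod.natCast_mod]
  generalize (h x).take j = u
  induction u with
  | nil => simp [par]
  | cons b u ih =>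
    rw [List.map_cons, List.sum_cons, Nat.cast_add, ih]
    have : ∀ y, par (b :: u) y = (if y = b then 1 else 0) + par u y := by
      intro y
      simp only [par, List.count_cons]
      by_cases hy : b = y
      · subst hy; simp; ring
      · have : ¬ y = b := fun h => hy h.symm
        simp [hy, this]
    simp only [this]
    push_cast
    simp only [add_mul, Finset.sum_add_distrib]
    simp

/-- table of the classes: class, type (`true` = suffix) and the common prefix (suffix) vector -/
abbrev Table := List (ℕ × Bool × ℕ × ℕ × ℕ)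

/-- look a class up in the table -/
def look : Table → ℕ → Option (Bool × ℕ × ℕ × ℕ)
  | [], _ => none
  | (k, t) :: T, s => bif Nat.beq k s then some t else look T s

theorem look_mem {T : Table} {s : ℕ} {t : Bool × ℕ × ℕ × ℕ} (h : look T s = some t) :
    s ∈ T.map Prod.fst := by
  induction T with
  | nil => simp [look] at h
  | cons kt T ih =>
    obtain ⟨k, t'⟩ := kt
    unfold look at h
    rw [List.map_cons, List.mem_cons]
    cases hb : Nat.beq k s with
    | true => left; exact (Nat.eq_of_beq_eq_true hb).symm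
    | false => rw [hb] at h; right; exact ih h

/-- test of one position -/
def ok (T : Table) (F₀ F₁ F₂ : ℕ) (s p₀ p₁ p₂ : ℕ) : Bool :=
  match look T s with
  | none => false
  | some (false, q₀, q₁, q₂) => Nat.beq p₀ q₀ && Nat.beq p₁ q₁ && Nat.beq p₂ q₂
  | some (true, q₀, q₁, q₂) =>
    Nat.beq (p₀ + q₀) F₀ && Nat.beq (p₁ + q₁) F₁ && Nat.beq (p₂ + q₂) F₂

/-- test of all positions of an image -/
def go (D g₀ g₁ g₂ : ℕ) (T : Table) (F₀ F₁ F₂ : ℕ) : List (Fin 3) → ℕ → ℕ → ℕ → ℕ → Bool
  | [], _, _, _, _ => true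
  | c :: l, s, p₀, p₁, p₂ => ok T F₀ F₁ F₂ s p₀ p₁ p₂ &&
    (match c with
      | 0 => go D g₀ g₁ g₂ T F₀ F₁ F₂ l ((s + g₀) % D) (p₀ + 1) p₁ p₂
      | 1 => go D g₀ g₁ g₂ T F₀ F₁ F₂ l ((s + g₁) % D) p₀ (p₁ + 1) p₂
      | 2 => go D g₀ g₁ g₂ T F₀ F₁ F₂ l ((s + g₂) % D) p₀ p₁ (p₂ + 1))

theorem fin3_cases (c : Fin 3) : c = 0 ∨ c = 1 ∨ c = 2 := by
  fin_cases c <;> simp

theorem go_spec {D : ℕ} {g : Fin 3 → ℕ} {T : Table} {F₀ F₁ F₂ : ℕ} (hD : 0 < D)
    (l : List (Fin 3)) : ∀ s p₀ p₁ p₂ : ℕ, s < D →
      go D (g 0) (g 1) (g 2) T F₀ F₁ F₂ l s p₀ p₁ p₂ = true → ∀ j < l.length,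
      ok T F₀ F₁ F₂ ((s + ((l.take j).map g).sum) % D) (p₀ + (l.take j).count 0)
        (p₁ + (l.take j).count 1) (p₂ + (l.take j).count 2) = true := by
  induction l with
  | nil => intro s p₀ p₁ p₂ _ _ j hj; simp at hj
  | cons c l ih =>
    intro s p₀ p₁ p₂ hs hgo j hj
    unfold go at hgo
    rw [Bool.and_eq_true] at hgo
    obtain ⟨h1, h2⟩ := hgo
    rcases j with _ | j
    · simpa [Nat.mod_eq_of_lt hs] using h1
    · have hj' : j < l.length := by simpa using hj
      have hmod : ∀ a, (s + a) % D < D := fun a => Nat.mod_lt _ hD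
      rcases fin3_cases c with rfl | rfl | rfl
      · have := ih _ _ _ _ (hmod _) h2 j hj'
        rw [Nat.mod_add_mod, add_assoc] at this
        rw [List.take_succ_cons, List.map_cons, List.sum_cons, List.count_cons, List.count_cons,
          List.count_cons, if_pos (by decide), if_neg (by decide), if_neg (by decide), add_zero,
          add_zero, ← add_assoc p₀, add_right_comm p₀]
        exact this
      · have := ih _ _ _ _ (hmod _) h2 j hj'
        rw [Nat.mod_add_mod, add_assoc] at this
        rw [List.take_succ_cons, List.map_cons, List.sum_cons, List.count_cons, List.count_cons,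
          List.count_cons, if_neg (by decide), if_pos (by decide), if_neg (by decide), add_zero,
          add_zero, ← add_assoc p₁, add_right_comm p₁]
        exact this
      · have := ih _ _ _ _ (hmod _) h2 j hj'
        rw [Nat.mod_add_mod, add_assoc] at this
        rw [List.take_succ_cons, List.map_cons, List.sum_cons, List.count_cons, List.count_cons,
          List.count_cons, if_neg (by decide), if_neg (by decide), if_pos (by decide), add_zero,
          add_zero, ← add_assoc p₂, add_right_comm p₂]
        exact this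

/-- inner loop of the progression test -/
def apRow (D m a : ℕ) : List ℕ → Bool
  | [] => true
  | b :: l => (Nat.beq a b || !(Nat.testBit m ((2 * b + (D - a)) % D)) ||
    !(Nat.testBit m ((3 * b + 2 * (D - a)) % D))) && apRow D m a l

/-- no nontrivial four term progression modulo `D`; `A` is the list of the residues and `m` is a
number whose binary digits at the places in `A` are ones -/
def apAll (D m : ℕ) (A : List ℕ) : List ℕ → Bool
  | [] => true
  | a :: l => apRow D m a A && apAll D m A l

theorem apRow_spec {D m a : ℕ} {A : List ℕ} (h : apRow D m a A = true) {b : ℕ} (hb : b ∈ A) :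
    (Nat.beq a b || !(Nat.testBit m ((2 * b + (D - a)) % D)) ||
    !(Nat.testBit m ((3 * b + 2 * (D - a)) % D))) = true := by
  induction A with
  | nil => simp at hb
  | cons c A ih =>
    unfold apRow at h
    rw [Bool.and_eq_true] at h
    rcases List.mem_cons.1 hb with rfl | hb
    · exact h.1
    · exact ih h.2 hb

theorem apAll_spec {D m : ℕ} {A L : List ℕ} (h : apAll D m A L = true) {a : ℕ} (ha : a ∈ L) :
    apRow D m a A = true := by
  induction L with
  | nil => simp at ha
  | cons c L ih =>
    unfold apAll at h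
    rw [Bool.and_eq_true] at h
    rcases List.mem_cons.1 ha with rfl | ha
    · exact h.1
    · exact ih h.2 ha

/-- the residues in the table are smaller than `D` and marked in `m` -/
def marked (D m : ℕ) : List ℕ → Bool
  | [] => true
  | a :: l => Nat.blt a D && Nat.testBit m a && marked D m l

theorem marked_spec {D m : ℕ} {A : List ℕ} (h : marked D m A = true) {a : ℕ} (ha : a ∈ A) :
    a < D ∧ Nat.testBit m a = true := by
  induction A with
  | nil => simp at ha
  | cons c A ih =>
    unfold marked at h
    rw [Bool.and_eq_true, Bool.and_eq_true] at h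
    rcases List.mem_cons.1 ha with rfl | ha
    · exact ⟨by simpa [Nat.blt_eq] using h.1.1, h.1.2⟩
    · exact ih h.2 ha

/-- the type of a class in the table: `1` for suffix classes, `0` otherwise -/
def typ (T : Table) (s : ℕ) : ℕ :=
  match look T s with
  | some (true, _) => 1
  | _ => 0

/-- the decidable form of the certificate -/
structure Check (h : Morph) (D : ℕ) (g : Fin 3 → ℕ) (A : List ℕ) (m : ℕ) (T : Table) : Prop where
  pos : 0 < D
  len : ∀ x, 2 ≤ (h x).length
  kill : ∀ x, ((h x).map g).sum % D = 0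
  tab : T.map Prod.fst = A
  mark : marked D m A = true
  ap : apAll D m A A = true
  pos_ok : ∀ x, go D (g 0) (g 1) (g 2) T ((h x).count 0) ((h x).count 1) ((h x).count 2)
    (h x) 0 0 0 0 = true

theorem ok_spec {T : Table} {F₀ F₁ F₂ s p₀ p₁ p₂ : ℕ} (h : ok T F₀ F₁ F₂ s p₀ p₁ p₂ = true) :
    ∃ b q₀ q₁ q₂, look T s = some (b, q₀, q₁, q₂) ∧
      (b = false → typ T s = 0 ∧ p₀ = q₀ ∧ p₁ = q₁ ∧ p₂ = q₂) ∧
      (b = true → typ T s = 1 ∧ p₀ + q₀ = F₀ ∧ p₁ + q₁ = F₁ ∧ p₂ + q₂ = F₂) := by
  unfold ok at h
  unfold typ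
  rcases hl : look T s with _ | ⟨b, q₀, q₁, q₂⟩
  · rw [hl] at h; simp at h
  · rw [hl] at h
    cases b with
    | false =>
      refine ⟨false, q₀, q₁, q₂, rfl, fun _ => ⟨rfl, ?_⟩, fun hb => by simp at hb⟩
      simp only [Bool.and_eq_true] at h
      exact ⟨Nat.eq_of_beq_eq_true h.1.1, Nat.eq_of_beq_eq_true h.1.2,
        Nat.eq_of_beq_eq_true h.2⟩
    | true =>
      refine ⟨true, q₀, q₁, q₂, rfl, fun hb => by simp at hb, fun _ => ⟨rfl, ?_⟩⟩
      simp only [Bool.and_eq_true] at h
      exact ⟨Nat.eq_of_beq_eq_true h.1.1, Nat.eq_of_beq_eq_true h.1.2,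
        Nat.eq_of_beq_eq_true h.2⟩

theorem cert_of_check {h : Morph} {D : ℕ} {g : Fin 3 → ℕ} {A : List ℕ} {m : ℕ} {T : Table}
    (C : Check h D g A m T) (hinj : ∀ v : Fin 3 → ℤ, (∀ x, act h v x = 0) → v = 0) :
    Cert h D (fun y => ((g y : ℕ) : ZMod D)) (fun x j => typ T (cl h D g x j)) where
  len := C.len
  kill := by
    intro x
    have h1 := cast_cl h D g x (h x).length
    rw [List.take_length] at h1
    rw [← h1]
    unfold cl
    rw [List.take_length, C.kill x, Nat.cast_zero]
  ap := by
    intro x₀ x₁ x₂ x₃ j₀ hj₀ j₁ hj₁ j₂ hj₂ j₃ hj₃ d h1 h2 h3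
    have : NeZero D := ⟨C.pos.ne'⟩
    rw [← cast_cl, ← cast_cl] at h1 h2 h3
    have mem : ∀ x j, j < (h x).length → cl h D g x j ∈ A := by
      intro x j hj
      have h4 := go_spec (g := g) C.pos (h x) 0 0 0 0 C.pos (C.pos_ok x) j hj
      obtain ⟨b, q₀, q₁, q₂, h5, _⟩ := ok_spec h4
      rw [zero_add] at h5
      rw [← C.tab]
      exact look_mem h5
    have lt : ∀ a ∈ A, a < D := fun a ha => (marked_spec C.mark ha).1
    have bit : ∀ a ∈ A, Nat.testBit m a = true := fun a ha => (marked_spec C.mark ha).2
    set a := cl h D g x₀ j₀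
    set b := cl h D g x₁ j₁
    set c := cl h D g x₂ j₂
    set k := cl h D g x₃ j₃
    have ha : a ∈ A := mem x₀ j₀ hj₀
    have hb : b ∈ A := mem x₁ j₁ hj₁
    have hc : c ∈ A := mem x₂ j₂ hj₂
    have hk : k ∈ A := mem x₃ j₃ hj₃
    have haD := lt a ha
    have hcD := lt c hc
    have hkD := lt k hk
    have hd : d = (b : ZMod D) - a := by rw [h1]; ring
    have hc' : c = (2 * b + (D - a)) % D := by
      have e1 : (c : ZMod D) = ((2 * b + (D - a) : ℕ) : ZMod D) := by
        rw [h2, hd, Nat.cast_add, Nat.cast_mul, Nat.cast_sub haD.le, ZMod.natCast_self]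
        push_cast
        ring
      rw [ZMod.natCast_eq_natCast_iff] at e1
      rw [← Nat.mod_eq_of_lt hcD]
      exact e1
    have hk' : k = (3 * b + 2 * (D - a)) % D := by
      have e1 : (k : ZMod D) = ((3 * b + 2 * (D - a) : ℕ) : ZMod D) := by
        rw [h3, h2, hd, Nat.cast_add, Nat.cast_mul, Nat.cast_mul, Nat.cast_sub haD.le,
          ZMod.natCast_self]
        push_cast
        ring
      rw [ZMod.natCast_eq_natCast_iff] at e1
      rw [← Nat.mod_eq_of_lt hkD]
      exact e1
    have h6 := apRow_spec (apAll_spec C.ap ha) hb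
    rw [← hc', ← hk', bit c hc, bit k hk] at h6
    simp only [Bool.not_true, Bool.or_false] at h6
    rw [hd, Nat.eq_of_beq_eq_true h6, sub_self]
  e_le := by
    intro x j
    unfold typ
    rcases look T (cl h D g x j) with _ | ⟨b, t⟩
    · simp
    · cases b <;> simp
  same := by
    intro x y i hi j hj h1 z
    have : NeZero D := ⟨C.pos.ne'⟩
    rw [← cast_cl, ← cast_cl] at h1
    have h2 : cl h D g x i = cl h D g y j := by
      rw [ZMod.natCast_eq_natCast_iff] at h1
      have a1 : cl h D g x i < D := Nat.mod_lt _ C.pos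
      have a2 : cl h D g y j < D := Nat.mod_lt _ C.pos
      rw [← Nat.mod_eq_of_lt a1, ← Nat.mod_eq_of_lt a2]
      exact h1
    have h3 := ok_spec (go_spec (g := g) C.pos (h x) 0 0 0 0 C.pos (C.pos_ok x) i hi)
    have h4 := ok_spec (go_spec (g := g) C.pos (h y) 0 0 0 0 C.pos (C.pos_ok y) j hj)
    simp only [zero_add] at h3 h4
    have e1 : (((h x).take i).map g).sum % D = cl h D g x i := rfl
    have e2 : (((h y).take j).map g).sum % D = cl h D g y j := rfl
    rw [e1] at h3
    rw [e2, ← h2] at h4
    rw [← h2]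
    obtain ⟨b, q₀, q₁, q₂, l1, f1, t1⟩ := h3
    obtain ⟨b', q₀', q₁', q₂', l2, f2, t2⟩ := h4
    rw [l1] at l2
    injection l2 with l2
    injection l2 with lb l2
    injection l2 with l20 l2
    injection l2 with l21 l22
    subst lb l20 l21 l22
    simp only [par]
    cases b with
    | false =>
      obtain ⟨ty, a0, a1, a2⟩ := f1 rfl
      obtain ⟨-, b0, b1, b2⟩ := f2 rfl
      rw [ty]
      fin_cases z <;> simp <;> omega
    | true =>
      obtain ⟨ty, a0, a1, a2⟩ := t1 rfl
      obtain ⟨-, b0, b1, b2⟩ := t2 rfl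
      rw [ty]
      fin_cases z <;> simp <;> omega
  inj := hinj

end Pool.Agent.Lib.MP_afd3e6_co
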