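import Mathlib

/-!
Counting the small roots of a real cubic with three real roots.
-/

namespace Pool.Agent.Lib.MP_afd3e6_co

open Polynomial

theorem exists_root {t s d a b : ℝ} (hab : a ≤ b) (h : (a ^ 3 - t * a ^ 2 + s * a - d) *
    (b ^ 3 - t * b ^ 2 + s * b - d) ≤ 0) :
    ∃ r, a ≤ r ∧ r ≤ b ∧ r ^ 3 - t * r ^ 2 + s * r - d = 0 := by
  have hc : ContinuousOn (fun r : ℝ => r ^ 3 - t * r ^ 2 + s * r - d) (Set.Icc a b) := by
    fun_prop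
  rcases le_total (a ^ 3 - t * a ^ 2 + s * a - d) 0 with ha | ha
  · rcases ha.lt_or_eq with ha' | ha'
    · have hb : 0 ≤ b ^ 3 - t * b ^ 2 + s * b - d := by
        by_contra hcon
        push Not at hcon
        have := mul_pos_of_neg_of_neg ha' hcon
        linarith
      obtain ⟨r, hr, hr0⟩ := intermediate_value_Icc hab hc ⟨ha, hb⟩
      exact ⟨r, hr.1, hr.2, hr0⟩
    · exact ⟨a, le_rfl, hab, ha'⟩
  · rcases ha.lt_or_eq with ha' | ha'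
    · have hb : b ^ 3 - t * b ^ 2 + s * b - d ≤ 0 := by
        by_contra hcon
        push Not at hcon
        have := mul_pos ha' hcon
        linarith
      obtain ⟨r, hr, hr0⟩ := intermediate_value_Icc' hab hc ⟨hb, ha⟩
      exact ⟨r, hr.1, hr.2, hr0⟩
    · exact ⟨a, le_rfl, hab, ha'.symm⟩

theorem count_roots {t s d r₁ r₂ r₃ : ℝ} (h12 : r₁ ≠ r₂) (h13 : r₁ ≠ r₃) (h23 : r₂ ≠ r₃)
    (e1 : r₁ ^ 3 - t * r₁ ^ 2 + s * r₁ - d = 0) (e2 : r₂ ^ 3 - t * r₂ ^ 2 + s * r₂ - d = 0)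
    (e3 : r₃ ^ 3 - t * r₃ ^ 2 + s * r₃ - d = 0) (n1 : 1 ≤ |r₁|) (n2 : 1 ≤ |r₂|) (n3 : |r₃| < 1) :
    ((X ^ 3 - C (t : ℂ) * X ^ 2 + C (s : ℂ) * X - C (d : ℂ) : ℂ[X]).roots.filter
      (fun z => ‖z‖ < 1)).card = 1 := by
  have f12 : r₁ ^ 2 + r₁ * r₂ + r₂ ^ 2 - t * (r₁ + r₂) + s = 0 := by
    apply mul_left_cancel₀ (sub_ne_zero.2 h12)
    linear_combination e1 - e2
  have f23 : r₂ ^ 2 + r₂ * r₃ + r₃ ^ 2 - t * (r₂ + r₃) + s = 0 := by
    apply mul_left_cancel₀ (sub_ne_zero.2 h23)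
    linear_combination e2 - e3
  have ht : t = r₁ + r₂ + r₃ := by
    apply mul_left_cancel₀ (sub_ne_zero.2 h13)
    linear_combination f23 - f12
  have hs : s = r₁ * r₂ + r₁ * r₃ + r₂ * r₃ := by
    rw [ht] at f12
    linear_combination f12
  have hd : d = r₁ * r₂ * r₃ := by
    rw [ht, hs] at e1
    linear_combination -e1
  have hP : (X ^ 3 - C (t : ℂ) * X ^ 2 + C (s : ℂ) * X - C (d : ℂ) : ℂ[X]) =
      (X - C (r₁ : ℂ)) * (X - C (r₂ : ℂ)) * (X - C (r₃ : ℂ)) := by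
    rw [ht, hs, hd]
    push_cast
    simp only [map_add, map_mul]
    ring
  have z1 : (X - C (r₁ : ℂ)) ≠ 0 := X_sub_C_ne_zero _
  have z2 : (X - C (r₂ : ℂ)) ≠ 0 := X_sub_C_ne_zero _
  have z3 : (X - C (r₃ : ℂ)) ≠ 0 := X_sub_C_ne_zero _
  rw [hP, roots_mul (mul_ne_zero (mul_ne_zero z1 z2) z3), roots_mul (mul_ne_zero z1 z2),
    roots_X_sub_C, roots_X_sub_C, roots_X_sub_C]
  rw [Multiset.filter_add, Multiset.filter_add, Multiset.filter_singleton,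
    Multiset.filter_singleton, Multiset.filter_singleton]
  have m1 : ¬ ‖(r₁ : ℂ)‖ < 1 := by rw [Complex.norm_real, Real.norm_eq_abs]; exact not_lt.2 n1
  have m2 : ¬ ‖(r₂ : ℂ)‖ < 1 := by rw [Complex.norm_real, Real.norm_eq_abs]; exact not_lt.2 n2
  have m3 : ‖(r₃ : ℂ)‖ < 1 := by rw [Complex.norm_real, Real.norm_eq_abs]; exact n3
  rw [if_neg m1, if_neg m2, if_pos m3]
  simp

theorem charpoly_three (M : Matrix (Fin 3) (Fin 3) ℂ) :
    M.charpoly = X ^ 3 - C (M 0 0 + M 1 1 + M 2 2) * X ^ 2 +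
      C (M 0 0 * M 1 1 - M 0 1 * M 1 0 + M 0 0 * M 2 2 - M 0 2 * M 2 0 + M 1 1 * M 2 2 -
        M 1 2 * M 2 1) * X -
      C (M 0 0 * M 1 1 * M 2 2 - M 0 0 * M 1 2 * M 2 1 - M 0 1 * M 1 0 * M 2 2 +
        M 0 1 * M 1 2 * M 2 0 + M 0 2 * M 1 0 * M 2 1 - M 0 2 * M 1 1 * M 2 0) := by
  rw [Matrix.charpoly, Matrix.det_fin_three]
  simp only [Matrix.charmatrix_apply, Matrix.diagonal_apply]
  simp
  ring

end Pool.Agent.Lib.MP_afd3e6_co
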